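import Pool.Agent.U404.AS.Low
import Pool.Agent.U404.AS.Up

/-!
# The Hardy-Littlewood question for almost all finite sets in place of the intervals

The question is whether the largest number `ρ` of primes which occur in infinitely many translates of the interval
`{1, …, k}` is equal to the largest number `h` of elements of a translate which have no prime factor `p ≤ k`. It makes
sense for every finite set `I` of `k` natural numbers in place of `{1, …, k}`, and `ρ(I) ≤ h(I)`. For the interval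
only `ρ ≥ c log k` is known, while `h` is at least of the order `k / log k`.

Here it is shown that for almost all sets `I` the answer is yes up to a constant factor: for `ε > 0`, `k ≥ k₀(ε)` and
`n ≥ n₀(ε, k)` all but at most the proportion `ε` of the sets `I` of `k` elements of `{1, …, n}` satisfy

`(1 - ε) h(I) / 4 ≤ ρ(I) ≤ h(I)`,  `ρ(I) ≥ (1 - ε) exp(-γ) k / (4 log k)`,  `h(I) ≤ (1 + ε) exp(-γ) k / log k`,

and the lower bound for `ρ(I)` holds for almost all subsets with `k` elements of EVERY finite set with `n₀`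
elements (for instance of squares or of powers of two).

Proof. Lower bound: for the primes `p ≤ T`, `T` about `exp(-γ) k / log k`, the elements of a residue class modulo `p`
are removed; by Mertens' theorem and Chebyshev's inequality at least `T` elements of almost every `I` remain. By
the coloured Maynard-Tao theorem of the starting library (`Pool.Agent.H362R2.CM.quarter`) and Erdős' theorem on
complete multipartite hypergraphs almost all `T`-element sets of remaining numbers contain `T / 4` elements for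
which the translates are simultaneously prime infinitely often. Upper bound: for given residue classes modulo the
primes `p ≤ η k / log k` the number of elements of `I` outside these classes has a large deviation bound which is
smaller than the inverse of the number of the choices of the classes.
-/

set_option autoImplicit false

namespace Pool.Agent.Results.MP_cbf366_nt.AlmostAllSets

open Filter

/-- the number of `i ∈ I` such that `n + i` is prime -/
def primesIn (I : Finset ℕ) (n : ℕ) : ℕ := (I.filter (fun i => (n + i).Prime)).card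

/-- the largest `L` such that infinitely many translates `n + I` contain at least `L` primes: for `I = {1, …, k}`
the number `ρ(k)` of the problem -/
noncomputable def rho (I : Finset ℕ) : ℕ := sSup {L : ℕ | ∃ᶠ n : ℕ in atTop, L ≤ primesIn I n}

/-- the number of `i ∈ I` such that `m + i` has no prime factor `p ≤ k` -/
def sieved (k m : ℕ) (I : Finset ℕ) : ℕ := (I.filter (fun i => ∀ p ≤ k, p.Prime → ¬ p ∣ m + i)).card

/-- the maximum of `sieved k m I` over all `m`: for `I = {1, …, k}` the number `max_m h_m(k)` of the problem -/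
noncomputable def hmax (k : ℕ) (I : Finset ℕ) : ℕ := sSup (Set.range (fun m => sieved k m I))

lemma bdd_rho (I : Finset ℕ) : BddAbove {L : ℕ | ∃ᶠ n : ℕ in atTop, L ≤ primesIn I n} := by
  refine ⟨I.card, fun L hL => ?_⟩
  obtain ⟨n, hn⟩ := hL.exists
  exact hn.trans (Finset.card_le_card (Finset.filter_subset _ _))

lemma bdd_hmax (k : ℕ) (I : Finset ℕ) : BddAbove (Set.range (fun m => sieved k m I)) := by
  refine ⟨I.card, ?_⟩
  rintro _ ⟨m, rfl⟩
  exact Finset.card_le_card (Finset.filter_subset _ _)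

lemma rho_le_hmax (k : ℕ) (I : Finset ℕ) : rho I ≤ hmax k I := by
  apply csSup_le ⟨0, Frequently.of_forall fun n => Nat.zero_le _⟩
  intro L hL
  obtain ⟨n, hn, hnk⟩ := (hL.and_eventually (eventually_gt_atTop k)).exists
  refine hn.trans (le_trans ?_ (le_csSup (bdd_hmax k I) ⟨n, rfl⟩))
  apply Finset.card_le_card
  intro i hi
  rw [Finset.mem_filter] at hi ⊢
  refine ⟨hi.1, fun p hpk hp hd => ?_⟩
  have := (Nat.prime_dvd_prime_iff_eq hp hi.2).1 hd
  omega

lemma le_rho {I J : Finset ℕ} (hJI : J ⊆ I) (hJ : Pool.Agent.U404.AS.Oft J) : J.card ≤ rho I := by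
  apply le_csSup (bdd_rho I)
  have h1 : ∃ᶠ n : ℕ in atTop, ∀ j ∈ J, (n + j).Prime := Nat.frequently_atTop_iff_infinite.2 hJ
  refine h1.mono fun n hn => ?_
  apply Finset.card_le_card
  intro j hj
  rw [Finset.mem_filter]
  exact ⟨hJI hj, hn j hj⟩

lemma hmax_mem (k : ℕ) (I : Finset ℕ) : ∃ m, sieved k m I = hmax k I := by
  have h := Nat.sSup_mem (s := Set.range (fun m => sieved k m I)) ⟨_, ⟨0, rfl⟩⟩ (bdd_hmax k I)
  exact h

/-- `exp (- γ) * k / log k`, where `γ` is Euler's constant -/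
noncomputable def main (k : ℕ) : ℝ := Real.exp (-Real.eulerMascheroniConstant) * (k / Real.log k)

/-- **The Hardy-Littlewood question for almost all finite sets.** `ρ(I) ≤ h(I)` for all finite sets `I`. For
`0 < ε < 1` and all `k ≥ k₀(ε)` there is `n₀` such that

1. of the `k`-element subsets `I` of any set `F` of at least `n₀` natural numbers at most the proportion `ε` does not
   satisfy `ρ(I) ≥ (1 - ε) / 4 * exp (- γ) * k / log k`;
2. of the `k`-element subsets `I` of `{1, …, n}`, `n ≥ n₀`, at most the proportion `ε` does not satisfy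
   `h(I) ≤ (1 + ε) * exp (- γ) * k / log k`;
3. of the `k`-element subsets `I` of `{1, …, n}`, `n ≥ n₀`, at most the proportion `ε` does not satisfy
   `ρ(I) ≥ (1 - ε) / 4 * h(I)`. -/
theorem result : (∀ (k : ℕ) (I : Finset ℕ), rho I ≤ hmax k I) ∧
    ∀ ε : ℝ, 0 < ε → ε < 1 → ∃ k₀ : ℕ, ∀ k : ℕ, k₀ ≤ k → ∃ n₀ : ℕ,
      (∀ F : Finset ℕ, n₀ ≤ F.card →
        ({I : Finset ℕ | I ⊆ F ∧ I.card = k ∧ (rho I : ℝ) < (1 - ε) / 4 * main k}.ncard : ℝ) ≤
          ε * (F.card.choose k : ℝ)) ∧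
      (∀ n : ℕ, n₀ ≤ n →
        ({I : Finset ℕ | I ⊆ Finset.Icc 1 n ∧ I.card = k ∧ (1 + ε) * main k < (hmax k I : ℝ)}.ncard : ℝ) ≤
          ε * (n.choose k : ℝ)) ∧
      (∀ n : ℕ, n₀ ≤ n →
        ({I : Finset ℕ | I ⊆ Finset.Icc 1 n ∧ I.card = k ∧ (rho I : ℝ) < (1 - ε) / 4 * hmax k I}.ncard : ℝ) ≤
          ε * (n.choose k : ℝ)) := by
  classical
  refine ⟨rho_le_hmax, ?_⟩
  have hlow : ∀ ε : ℝ, 0 < ε → ε < 1 → ∃ k₀ : ℕ, ∀ k : ℕ, k₀ ≤ k → ∃ n₀ : ℕ, ∀ F : Finset ℕ, n₀ ≤ F.card →
      ({I : Finset ℕ | I ⊆ F ∧ I.card = k ∧ (rho I : ℝ) < (1 - ε) / 4 * main k}.ncard : ℝ) ≤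
          ε * (F.card.choose k : ℝ) := by
    intro ε hε hε1
    obtain ⟨k₀, h⟩ := Pool.Agent.U404.AS.lower hε hε1
    refine ⟨k₀, fun k hk => ?_⟩
    obtain ⟨n₀, h⟩ := h k hk
    refine ⟨n₀, fun F hF => le_trans ?_ (h F hF)⟩
    rw [Nat.cast_le, ← Set.ncard_coe_finset]
    apply Set.ncard_le_ncard _ (Finset.finite_toSet _)
    rintro I ⟨hI1, hI2, hI3⟩
    rw [Finset.mem_coe, Finset.mem_filter, Finset.mem_powersetCard]
    refine ⟨⟨hI1, hI2⟩, ?_⟩
    rintro ⟨J, hJ, hJc, hJO⟩
    have h1 : (J.card : ℝ) ≤ rho I := by exact_mod_cast le_rho hJ hJO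
    have h2 : 1 / 4 * (1 - ε) * Pool.Agent.U404.AS.e0 * ((k : ℝ) / Real.log k) = (1 - ε) / 4 * main k := by
      unfold Pool.Agent.U404.AS.e0 main
      ring
    rw [h2] at hJc
    linarith
  have hup : ∀ ε : ℝ, 0 < ε → ε < 1 → ∃ k₀ : ℕ, ∀ k : ℕ, k₀ ≤ k → ∃ n₀ : ℕ, ∀ n : ℕ, n₀ ≤ n →
      ({I : Finset ℕ | I ⊆ Finset.Icc 1 n ∧ I.card = k ∧ (1 + ε) * main k < (hmax k I : ℝ)}.ncard : ℝ) ≤
          ε * (n.choose k : ℝ) := by
    intro ε hε hε1
    obtain ⟨k₀, h⟩ := Pool.Agent.U404.AS.upper hε hε1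
    refine ⟨k₀, fun k hk => ?_⟩
    obtain ⟨n₀, h⟩ := h k hk
    refine ⟨n₀, fun n hn => le_trans ?_ (h n hn)⟩
    rw [Nat.cast_le, ← Set.ncard_coe_finset]
    apply Set.ncard_le_ncard _ (Finset.finite_toSet _)
    rintro I ⟨hI1, hI2, hI3⟩
    rw [Finset.mem_coe, Finset.mem_filter, Finset.mem_powersetCard]
    refine ⟨⟨hI1, hI2⟩, ?_⟩
    obtain ⟨m, hm⟩ := hmax_mem k I
    refine ⟨m, ?_⟩
    have h2 : (1 + ε) * Pool.Agent.U404.AS.e0 * ((k : ℝ) / Real.log k) = (1 + ε) * main k := by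
      unfold Pool.Agent.U404.AS.e0 main
      ring
    rw [h2]
    have h3 : (Pool.Agent.U404.AS.rough k m I).card = hmax k I := hm
    rw [h3]
    exact hI3
  intro ε hε hε1
  obtain ⟨k₁, h1⟩ := hlow ε hε hε1
  obtain ⟨k₂, h2⟩ := hup ε hε hε1
  obtain ⟨k₃, h3⟩ := hlow (ε / 2) (by positivity) (by linarith)
  obtain ⟨k₄, h4⟩ := hup (ε / 2) (by positivity) (by linarith)
  refine ⟨max (max k₁ k₂) (max (max k₃ k₄) 2), fun k hk => ?_⟩
  have hk2 : 2 ≤ k := (le_max_right _ _).trans ((le_max_right _ _).trans hk)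
  obtain ⟨n₁, h1⟩ := h1 k ((le_max_left _ _).trans ((le_max_left _ _).trans hk))
  obtain ⟨n₂, h2⟩ := h2 k ((le_max_right _ _).trans ((le_max_left _ _).trans hk))
  obtain ⟨n₃, h3⟩ := h3 k ((le_max_left _ _).trans ((le_max_left _ _).trans ((le_max_right _ _).trans hk)))
  obtain ⟨n₄, h4⟩ := h4 k ((le_max_right _ _).trans ((le_max_left _ _).trans ((le_max_right _ _).trans hk)))
  refine ⟨max (max n₁ n₂) (max n₃ n₄), fun F hF => h1 F ((le_max_left _ _).trans ((le_max_left _ _).trans hF)),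
    fun n hn => h2 n ((le_max_right _ _).trans ((le_max_left _ _).trans hn)), fun n hn => ?_⟩
  have h3' := h3 (Finset.Icc 1 n) (by
    rw [Nat.card_Icc, Nat.add_sub_cancel]
    exact (le_max_left _ _).trans ((le_max_right _ _).trans hn))
  rw [Nat.card_Icc, Nat.add_sub_cancel] at h3'
  have h4' := h4 n ((le_max_right _ _).trans ((le_max_right _ _).trans hn))
  have hfin : ∀ P : Finset ℕ → Prop, {I : Finset ℕ | I ⊆ Finset.Icc 1 n ∧ P I}.Finite := fun P =>
    Set.Finite.subset (Finset.finite_toSet (Finset.Icc 1 n).powerset) fun I hI => by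
      rw [Finset.mem_coe, Finset.mem_powerset]
      exact hI.1
  have hmain : 0 ≤ main k := by
    unfold main
    have : 0 < Real.log k := Real.log_pos (by exact_mod_cast (by omega : 1 < k))
    positivity
  have hsub : {I : Finset ℕ | I ⊆ Finset.Icc 1 n ∧ I.card = k ∧ (rho I : ℝ) < (1 - ε) / 4 * hmax k I} ⊆
      {I : Finset ℕ | I ⊆ Finset.Icc 1 n ∧ I.card = k ∧ (rho I : ℝ) < (1 - ε / 2) / 4 * main k} ∪
      {I : Finset ℕ | I ⊆ Finset.Icc 1 n ∧ I.card = k ∧ (1 + ε / 2) * main k < (hmax k I : ℝ)} := by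
    rintro I ⟨hI1, hI2, hI3⟩
    by_cases h5 : (1 + ε / 2) * main k < (hmax k I : ℝ)
    · exact Or.inr ⟨hI1, hI2, h5⟩
    · left
      refine ⟨hI1, hI2, ?_⟩
      push Not at h5
      have h6 : (1 - ε) / 4 * (hmax k I : ℝ) ≤ (1 - ε) / 4 * ((1 + ε / 2) * main k) :=
        mul_le_mul_of_nonneg_left h5 (by linarith)
      have h7 : (1 - ε) / 4 * ((1 + ε / 2) * main k) ≤ (1 - ε / 2) / 4 * main k := by
        have : (1 - ε) * (1 + ε / 2) ≤ 1 - ε / 2 := by nlinarith
        nlinarith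
      linarith
  have h8 := (Set.ncard_le_ncard hsub ((hfin _).union (hfin _))).trans (Set.ncard_union_le _ _)
  have h9 : ({I : Finset ℕ | I ⊆ Finset.Icc 1 n ∧ I.card = k ∧ (rho I : ℝ) < (1 - ε) / 4 * hmax k I}.ncard : ℝ) ≤
      ({I : Finset ℕ | I ⊆ Finset.Icc 1 n ∧ I.card = k ∧ (rho I : ℝ) < (1 - ε / 2) / 4 * main k}.ncard : ℝ) +
      ({I : Finset ℕ | I ⊆ Finset.Icc 1 n ∧ I.card = k ∧ (1 + ε / 2) * main k < (hmax k I : ℝ)}.ncard : ℝ) := by
    exact_mod_cast h8
  linarith

end Pool.Agent.Results.MP_cbf366_nt.AlmostAllSets
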