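import Mathlib
import Pool.Agent.U98.TZ.B8
import Pool.Agent.R463.EX9

set_option autoImplicit false

/-!
# Windows with the maximal number of almost primes

Let `h_m(k)` be the number of the integers in `(m, m + k]` without prime factors `p ≤ k`. Hardy and Littlewood: is
`max_m h_m(k)` the largest number of primes which occurs in windows of `k` consecutive integers arbitrarily far out?
Call an integer rough at the level `w` if it has no prime factors `p ≤ w`. For `w ≥ k` a window of `k` positive
integers contains at most `max_m h_m(k)` rough numbers; it is full if it contains so many and if its first element is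
rough. The type of a full window `[n, n + k)` is the set `S` of the `i < k` for which `n + i` is rough.

* For every type `S` and every `b ∈ S` the number of the full windows of the type `S` for which `n + b` is a PRIME is
  asymptotically the expected one, for levels up to a small power of the size of `n`. So all numbers `n + i`, `i ∈ S`,
  have a bounded number of prime factors and `n + b` is prime.
* The types of successive full windows form a sequence of independent trials with the probabilities of Hardy and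
  Littlewood, and they are independent of the distances, which have the exponential law; this holds in ALL intervals of
  length `≥ w ^ K`.
-/

namespace Pool.Agent.Results.MP_cbf366_nt.FullWindows

open Finset

/-- `h_m(k)`: the number of the integers `m < n ≤ m + k` without prime factors `p ≤ k` -/
noncomputable def h (m k : ℕ) : ℕ := {n | m < n ∧ n ≤ m + k ∧ ∀ p : ℕ, p.Prime → p ≤ k → ¬ p ∣ n}.ncard

/-- `max_m h_m(k)` (the values are at most `k`) -/
noncomputable def hmax (k : ℕ) : ℕ := sSup (Set.range fun m => h m k)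

/-- `n` has no prime factors `p ≤ w` -/
def Rough (w n : ℕ) : Prop := ∀ p : ℕ, p.Prime → p ≤ w → ¬ p ∣ n

/-- the number of the rough numbers in the window `[n, n + k)` -/
noncomputable def count (w n k : ℕ) : ℕ := {i | i < k ∧ Rough w (n + i)}.ncard

/-- the window `[n, n + k)` is full -/
def Full (w k n : ℕ) : Prop := Rough w n ∧ count w n k = hmax k

/-- the rough numbers in `[n, n + k)` are exactly the numbers `n + i`, `i ∈ S` -/
def Window (w k : ℕ) (S : Finset ℕ) (n : ℕ) : Prop := ∀ i < k, (Rough w (n + i) ↔ i ∈ S)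

/-- the types: the sets of `max_m h_m(k)` integers in `[0, k)` which contain `0` -/
noncomputable def types (k : ℕ) : Finset (Finset ℕ) := (range k).powerset.filter (fun S => 0 ∈ S ∧ S.card = hmax k)

/-- the number of the residue classes modulo `p` which contain elements of `S` -/
def nu (S : Finset ℕ) (p : ℕ) : ℕ := (S.image (fun x => x % p)).card

/-- the weight of the type `S` -/
noncomputable def weight (k : ℕ) (S : Finset ℕ) : ℝ := ∏ p ∈ (Icc 1 k).filter Nat.Prime, ((p : ℝ) - nu S p)

/-- the sum of the weights of all types -/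
noncomputable def total (k : ℕ) : ℝ := ∑ S ∈ types k, weight k S

/-- the density of the full windows -/
noncomputable def density (w k : ℕ) : ℝ :=
  total k * ∏ p ∈ (Icc 1 w).filter Nat.Prime, (if p ≤ k then 1 / (p : ℝ) else 1 - (hmax k : ℝ) / (p : ℝ))

/-- the next full window -/
noncomputable def next (w k n : ℕ) : ℕ := sInf {m | n < m ∧ Full w k m}

/-- The number of the full windows at `n ∈ (Z, Z + Y]` such that this and the next `l` full windows have the types
`S 0, ..., S l` and the `l` distances between them are in `(s j, T j]`. -/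
noncomputable def windowCount (w k l : ℕ) (S : ℕ → Finset ℕ) (s T : ℕ → ℕ) (Z Y : ℕ) : ℕ :=
  Set.ncard {n : ℕ | Z < n ∧ n ≤ Z + Y ∧ (∀ j ≤ l, Window w k (S j) ((next w k)^[j] n)) ∧
    ∀ j < l, s j < (next w k)^[j + 1] n - (next w k)^[j] n ∧ (next w k)^[j + 1] n - (next w k)^[j] n ≤ T j}

/-- the number of the windows of the type `S` at `n ∈ (u, u + Y]` for which `n + b` is prime -/
noncomputable def primeCount (w k : ℕ) (S : Finset ℕ) (b u Y : ℕ) : ℕ :=
  Set.ncard {n : ℕ | u < n ∧ n ≤ u + Y ∧ Window w k S n ∧ (n + b).Prime}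

/-- the product of `1 - 1 / p` over the primes `p ≤ w` -/
noncomputable def mertens (w : ℕ) : ℝ := ∏ p ∈ (Icc 1 w).filter Nat.Prime, (1 - 1 / (p : ℝ))

open Pool.Agent.U98.TZ Pool.Agent.U98.TY Pool.Agent.H373R2.T7 Pool.Agent.TH464.PO Pool.Agent.W123.RP

lemma h_set (m k : ℕ) : {n | m < n ∧ n ≤ m + k ∧ ∀ p : ℕ, p.Prime → p ≤ k → ¬ p ∣ n}.Finite :=
  (Set.finite_Icc 0 (m + k)).subset (fun _ hn => ⟨Nat.zero_le _, hn.2.1⟩)

lemma h_le (m k : ℕ) : h m k ≤ k := by
  unfold h
  have h1 : {n | m < n ∧ n ≤ m + k ∧ ∀ p : ℕ, p.Prime → p ≤ k → ¬ p ∣ n} ⊆ ((Ioc m (m + k) : Finset ℕ) : Set ℕ) := by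
    intro n hn
    rw [Finset.mem_coe, mem_Ioc]
    exact ⟨hn.1, hn.2.1⟩
  have h2 := Set.ncard_le_ncard h1 (Finset.finite_toSet _)
  rw [Set.ncard_coe_finset, Nat.card_Ioc] at h2
  omega

lemma h_bdd (k : ℕ) : BddAbove (Set.range fun m => h m k) := by
  refine ⟨k, ?_⟩
  rintro x ⟨m, rfl⟩
  exact h_le m k

lemma h_le_hmax (m k : ℕ) : h m k ≤ hmax k := le_csSup (h_bdd k) ⟨m, rfl⟩

lemma hmax_att (k : ℕ) : ∃ m, h m k = hmax k := by
  have := Nat.sSup_mem (Set.range_nonempty fun m => h m k) (h_bdd k)
  obtain ⟨m, hm⟩ := this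
  exact ⟨m, hm⟩

lemma count_set (w n k : ℕ) : {i | i < k ∧ Rough w (n + i)}.Finite :=
  (Set.finite_Iio k).subset (fun _ hi => hi.1)

lemma count_le (w n k : ℕ) (hw : k ≤ w) (hn : 1 ≤ n) : count w n k ≤ hmax k := by
  refine le_trans ?_ (h_le_hmax (n - 1) k)
  unfold count h
  refine Set.ncard_le_ncard_of_injOn (fun i => n + i) ?_ ?_ (h_set _ _)
  · intro i hi
    refine ⟨?_, ?_, ?_⟩
    · show n - 1 < n + i
      omega
    · show n + i ≤ n - 1 + k
      have := hi.1
      omega
    · intro p hp hpk
      exact hi.2 p hp (hpk.trans hw)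
  · intro a _ b _ hab
    have : n + a = n + b := hab
    omega

lemma hmax_pos (k : ℕ) (hk : 1 ≤ k) : 1 ≤ hmax k := by
  refine le_trans ?_ (h_le_hmax 0 k)
  unfold h
  rw [Nat.succ_le_iff, Set.ncard_pos (h_set 0 k)]
  refine ⟨1, by norm_num, by omega, ?_⟩
  intro p hp _ hd
  exact hp.one_lt.ne' (Nat.dvd_one.1 hd)

lemma mem_types (k : ℕ) (S : Finset ℕ) : S ∈ types k ↔ S ⊆ range k ∧ 0 ∈ S ∧ S.card = hmax k := by
  unfold types
  rw [mem_filter, mem_powerset]

open Classical in
/-- an admissible type -/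
lemma exists_type (k : ℕ) (hk : 1 ≤ k) : ∃ S ∈ types k, ∀ p : ℕ, p.Prime → nu S p < p := by
  obtain ⟨m, hm⟩ := hmax_att k
  obtain ⟨A, hA⟩ : ∃ A : Finset ℕ, A = (range k).filter (fun i => ∀ p : ℕ, p.Prime → p ≤ k → ¬ p ∣ m + 1 + i) :=
    ⟨_, rfl⟩
  have hAcard : A.card = hmax k := by
    rw [← hm]
    unfold h
    rw [← Set.ncard_coe_finset]
    apply Set.ncard_congr (fun i _ => m + 1 + i)
    · intro i hi
      rw [Finset.mem_coe, hA, mem_filter, mem_range] at hi
      refine ⟨?_, ?_, ?_⟩
      · show m < m + 1 + i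
        omega
      · show m + 1 + i ≤ m + k
        omega
      · exact hi.2
    · intro a b _ _ hab
      have : m + 1 + a = m + 1 + b := hab
      omega
    · intro n hn
      refine ⟨n - (m + 1), ?_, ?_⟩
      · rw [Finset.mem_coe, hA, mem_filter, mem_range]
        have h1 := hn.1
        have h2 := hn.2.1
        refine ⟨by omega, ?_⟩
        rw [show m + 1 + (n - (m + 1)) = n by omega]
        exact hn.2.2
      · have h1 := hn.1
        show m + 1 + (n - (m + 1)) = n
        omega
  have hApos : A.Nonempty := by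
    rw [← Finset.card_pos, hAcard]
    exact hmax_pos k hk
  obtain ⟨a, ha⟩ : ∃ a, a = A.min' hApos := ⟨_, rfl⟩
  have haA : a ∈ A := by rw [ha]; exact Finset.min'_mem A hApos
  have hamin : ∀ i ∈ A, a ≤ i := fun i hi => by rw [ha]; exact Finset.min'_le A i hi
  have hinj : Set.InjOn (fun i => i - a) (A : Set ℕ) := by
    intro x hx y hy hxy
    have h1 := hamin x (Finset.mem_coe.1 hx)
    have h2 := hamin y (Finset.mem_coe.1 hy)
    have h3 : x - a = y - a := hxy
    omega
  have hScard : (A.image (fun i => i - a)).card = hmax k := by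
    rw [card_image_of_injOn hinj, hAcard]
  refine ⟨A.image (fun i => i - a), ?_, ?_⟩
  · rw [mem_types]
    refine ⟨?_, ?_, hScard⟩
    · intro x hx
      rw [mem_image] at hx
      obtain ⟨i, hi, rfl⟩ := hx
      rw [hA, mem_filter, mem_range] at hi
      rw [mem_range]
      omega
    · rw [mem_image]
      exact ⟨a, haA, Nat.sub_self a⟩
  · intro p hp
    by_cases hpk : p ≤ k
    · unfold nu
      have h1 : (A.image (fun i => i - a)).image (fun x => x % p) ⊆ (range p).erase ((p - (m + 1 + a) % p) % p) := by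
        intro r hr
        rw [mem_image] at hr
        obtain ⟨x, hx, rfl⟩ := hr
        rw [mem_image] at hx
        obtain ⟨i, hi, rfl⟩ := hx
        rw [mem_erase, mem_range]
        refine ⟨?_, Nat.mod_lt _ hp.pos⟩
        intro hcon
        have hi' := hi
        rw [hA, mem_filter] at hi'
        apply hi'.2 p hp hpk
        have h2 : i - a ≡ p - (m + 1 + a) % p [MOD p] := hcon
        have h3 : (m + 1 + a) % p ≡ m + 1 + a [MOD p] := Nat.mod_modEq _ _
        have h4 : (i - a) + (m + 1 + a) ≡ (p - (m + 1 + a) % p) + (m + 1 + a) % p [MOD p] := h2.add h3.symm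
        have h5 := hamin i hi
        rw [show (i - a) + (m + 1 + a) = m + 1 + i by omega,
          Nat.sub_add_cancel (Nat.mod_lt (m + 1 + a) hp.pos).le] at h4
        exact (Nat.modEq_zero_iff_dvd).1 (h4.trans (Nat.modEq_zero_iff_dvd.2 dvd_rfl))
      have h2 := card_le_card h1
      rw [card_erase_of_mem (mem_range.2 (Nat.mod_lt _ hp.pos)), card_range] at h2
      have := hp.pos
      omega
    · have h1 : nu (A.image (fun i => i - a)) p ≤ (A.image (fun i => i - a)).card := card_image_le
      have h2 : hmax k ≤ k := by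
        rw [← hm]
        exact h_le m k
      omega

/-- windows and blocks -/
lemma window_iff (w k n : ℕ) (S : Finset ℕ) (hS : S ∈ types k) (hw : k ≤ w) (hw2 : 2 ≤ w) :
    Window w k S n ↔ Blk w S n := by
  rw [mem_types] at hS
  obtain ⟨hS1, hS2, hS3⟩ := hS
  have hk : 0 < k := mem_range.1 (hS1 hS2)
  have hsup : S.sup id < k := by
    rw [Finset.sup_lt_iff (by exact hk)]
    intro i hi
    exact mem_range.1 (hS1 hi)
  unfold Window Blk
  constructor
  · intro h1 i hi
    exact h1 i (by omega)
  · intro h1 i hi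
    have hle : ∀ j ∈ S, j ≤ S.sup id := fun j hj => Finset.le_sup (f := id) hj
    rcases Nat.eq_zero_or_pos n with hn | hn
    · exfalso
      subst hn
      have h2 := (h1 0 (Nat.zero_le _)).2 hS2
      exact h2 2 Nat.prime_two hw2 (dvd_zero 2)
    · constructor
      · intro hR
        by_contra hcon
        have hsub : ((insert i S : Finset ℕ) : Set ℕ) ⊆ {i | i < k ∧ Rough w (n + i)} := by
          intro j hj
          rw [Finset.mem_coe, mem_insert] at hj
          rcases hj with rfl | hj
          · exact ⟨hi, hR⟩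
          · exact ⟨mem_range.1 (hS1 hj), (h1 j (hle j hj)).2 hj⟩
        have h3 := Set.ncard_le_ncard hsub (count_set w n k)
        rw [Set.ncard_coe_finset, card_insert_of_notMem hcon] at h3
        have h4 := count_le w n k hw hn
        unfold count at h4
        omega
      · intro hj
        exact (h1 i (hle i hj)).2 hj

open Classical in
lemma full_iff (w k n : ℕ) (hk : 1 ≤ k) : Full w k n ↔ ∃ S ∈ types k, Window w k S n := by
  unfold Full
  constructor
  · rintro ⟨h1, h2⟩
    refine ⟨(range k).filter (fun i => Rough w (n + i)), ?_, ?_⟩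
    · rw [mem_types]
      refine ⟨filter_subset _ _, ?_, ?_⟩
      · rw [mem_filter, mem_range]
        exact ⟨by omega, h1⟩
      · rw [← h2]
        unfold count
        rw [← Set.ncard_coe_finset]
        congr 1
        ext i
        simp
    · intro i hi
      rw [mem_filter, mem_range]
      exact ⟨fun h => ⟨hi, h⟩, fun h => h.2⟩
  · rintro ⟨S, hS, h1⟩
    rw [mem_types] at hS
    refine ⟨(h1 0 (by omega)).2 hS.2.1, ?_⟩
    rw [← hS.2.2]
    unfold count
    rw [← Set.ncard_coe_finset]
    congr 1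
    ext i
    rw [Finset.mem_coe]
    constructor
    · rintro ⟨h2, h3⟩
      exact (h1 i h2).1 h3
    · intro h2
      have h3 := mem_range.1 (hS.1 h2)
      exact ⟨h3, (h1 i h3).2 h2⟩

lemma nu_le (S : Finset ℕ) (p : ℕ) (hp : 0 < p) : nu S p ≤ p := by
  unfold nu
  have : S.image (fun x => x % p) ⊆ range p := by
    intro x hx
    rw [mem_image] at hx
    obtain ⟨y, _, rfl⟩ := hx
    exact mem_range.2 (Nat.mod_lt _ hp)
  have := card_le_card this
  rwa [card_range] at this

lemma dS_type (w k : ℕ) (S : Finset ℕ) (hS : S ∈ types k) (hw : k ≤ w) : dS w S = weight k S *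
    ∏ p ∈ (Icc 1 w).filter Nat.Prime, (if p ≤ k then 1 / (p : ℝ) else 1 - (hmax k : ℝ) / (p : ℝ)) := by
  rw [mem_types] at hS
  unfold dS weight
  have h4 : ∏ p ∈ (Icc 1 k).filter Nat.Prime, ((p : ℝ) - nu S p) =
      ∏ p ∈ (Icc 1 w).filter Nat.Prime, (if p ≤ k then ((p : ℝ) - nu S p) else 1) := by
    rw [← Finset.prod_filter]
    apply prod_congr _ (fun _ _ => rfl)
    ext p
    rw [mem_filter, mem_filter, mem_filter, mem_Icc, mem_Icc]
    constructor
    · rintro ⟨⟨a1, a2⟩, a3⟩
      exact ⟨⟨⟨a1, a2.trans hw⟩, a3⟩, a2⟩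
    · rintro ⟨⟨⟨a1, _⟩, a3⟩, a2⟩
      exact ⟨⟨a1, a2⟩, a3⟩
  rw [h4, ← Finset.prod_mul_distrib]
  apply prod_congr rfl
  intro p hp
  rw [mem_filter] at hp
  have hp0 : (0 : ℝ) < p := by exact_mod_cast hp.2.pos
  split_ifs with h5
  · show 1 - (nu S p : ℝ) / p = _
    field_simp
  · have h6 : nuS S p = hmax k := by
      rw [nuS_large S (k - 1) p (fun i hi => by
        have := mem_range.1 (hS.1 hi)
        omega) (by omega), hS.2.2]
    rw [h6, one_mul]

/-- **Windows with the maximal number of almost primes.** -/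
theorem result (k : ℕ) (hk : 1 ≤ k) :
    -- some elementary facts
    (∀ w n : ℕ, k ≤ w → 1 ≤ n → count w n k ≤ hmax k) ∧
    (∀ w n : ℕ, Full w k n ↔ ∃ S ∈ types k, Window w k S n) ∧
    (∀ w n s : ℕ, 0 < n → n ≤ w ^ s → Rough w n → n.primeFactorsList.length ≤ s) ∧
    0 < total k ∧
    -- full windows with a prime at a prescribed place
    (∀ ε δ : ℝ, 0 < ε → 0 < δ → δ ≤ 1 → ∃ r w₀ : ℕ, ∀ w : ℕ, w₀ ≤ w → ∀ X : ℕ, w ^ r ≤ X →
      ∀ S ∈ types k, ∀ b ∈ S, ∀ u Y : ℕ, δ * X ≤ u → δ * X ≤ Y → u + Y ≤ X →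
        |(primeCount w k S b u Y : ℝ) * Real.log X -
            Y * (density w k * (weight k S / total k)) / mertens w| ≤
          ε * (Y * (density w k * (weight k S / total k)) / mertens w)) ∧
    -- the law of the types of successive full windows
    (∀ l : ℕ, ∀ ε : ℝ, 0 < ε → ∃ K w₀ : ℕ, ∀ w : ℕ, w₀ ≤ w → ∀ Z Y : ℕ, w ^ K ≤ Y →
      ∀ (S : ℕ → Finset ℕ) (s T : ℕ → ℕ), (∀ j ≤ l, S j ∈ types k) → (∀ j < l, s j ≤ T j) →
        |(windowCount w k l S s T Z Y : ℝ) - density w k * Y * (∏ j ∈ range (l + 1), weight k (S j) / total k) *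
            ∏ j ∈ range l, (Real.exp (-(density w k * s j)) - Real.exp (-(density w k * T j)))| ≤
          ε * (density w k * Y)) := by
  classical
  obtain ⟨S0, hS0, hadm⟩ := exists_type k hk
  have hw0 : ∀ S, 0 ≤ weight k S := by
    intro S
    unfold weight
    apply prod_nonneg
    intro p hp
    rw [mem_filter] at hp
    have := nu_le S p hp.2.pos
    have h1 : (nu S p : ℝ) ≤ p := by exact_mod_cast this
    linarith
  have hwp : 0 < weight k S0 := by
    unfold weight
    apply prod_pos
    intro p hp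
    rw [mem_filter] at hp
    have := hadm p hp.2
    have h1 : (nu S0 p : ℝ) < p := by exact_mod_cast this
    linarith
  have htot : 0 < total k := Finset.sum_pos' (fun S _ => hw0 S) ⟨S0, hS0, hwp⟩
  refine ⟨fun w n hw hn => count_le w n k hw hn, fun w n => full_iff w k n hk,
    fun w n s hn hns hR => few w s n hn hns hR, htot, ?_, ?_⟩
  · intro ε δ hε hδ hδ1
    obtain ⟨c1, C1, hc1, hC1, hVz⟩ := Pool.Agent.W123.RP.Vz_bounds
    obtain ⟨e1, he1⟩ : ∃ e1 : ℝ, e1 = min (ε / 2) 1 := ⟨_, rfl⟩
    have he10 : 0 < e1 := by rw [he1]; positivity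
    have he11 : e1 ≤ 1 := by rw [he1]; exact min_le_right _ _
    have he12 : e1 ≤ ε / 2 := by rw [he1]; exact min_le_left _ _
    obtain ⟨r, y0, hmain⟩ := Pool.Agent.R463.EX.prime_rough (hmax k) (hmax_pos k hk) k e1 δ he10 hδ hδ1
    have hlog : Filter.Tendsto (fun y : ℕ => Real.log (y : ℝ)) Filter.atTop Filter.atTop :=
      Real.tendsto_log_atTop.comp tendsto_natCast_atTop_atTop
    obtain ⟨y1, hy1⟩ := Filter.eventually_atTop.1 (hlog.eventually_ge_atTop (2 * k * C1 / ε + 1))
    refine ⟨r, max (max y0 y1) (max k 2), ?_⟩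
    intro w hw X hX S hS b hb u Y hu hY huY
    have b1 : y0 ≤ w := ((le_max_left _ _).trans (le_max_left _ _)).trans hw
    have b2 : y1 ≤ w := ((le_max_right _ _).trans (le_max_left _ _)).trans hw
    have b3 : k ≤ w := ((le_max_left _ _).trans (le_max_right _ _)).trans hw
    have b4 : 2 ≤ w := ((le_max_right _ _).trans (le_max_right _ _)).trans hw
    have hST := (mem_types k S).1 hS
    have hVQ : Vq Pool.Agent.R463.EX.Qi w = Vz w := Pool.Agent.R463.EX.Vz_Qi w
    have hVz0 : 0 < Vz w := Pool.Agent.H373R2.T7.Vz_pos w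
    have hVz1 : Vz w ≤ 1 := by
      rw [← hVQ]
      exact Vq_le_one _ w
    have hk0 : (0 : ℝ) ≤ k := Nat.cast_nonneg k
    have hkm : (((k - 1 : ℕ) : ℕ) : ℝ) ≤ k := by exact_mod_cast Nat.sub_le k 1
    have h1 := hmain w b1 X hX S hST.2.2 hST.2.1 b hb (k - 1) (by
      rw [Nat.sub_add_cancel hk]
      exact hST.1) (by
      rw [hVQ]
      calc (((k - 1 : ℕ) : ℕ) : ℝ) * Vz w ≤ k * 1 := mul_le_mul hkm hVz1 hVz0.le hk0
        _ = k := mul_one _) u Y hu hY huY
    -- the count
    have hcount : Pool.Agent.R463.EX.exP 1 b Pool.Agent.R463.EX.Qi S (k - 1) w u Y = primeCount w k S b u Y := by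
      unfold Pool.Agent.R463.EX.exP primeCount
      rw [← Set.ncard_coe_finset]
      congr 1
      ext n
      rw [Finset.mem_coe, mem_filter, mem_Ioc, one_mul]
      have hSf : ∀ m, Pool.Agent.TH464.PO.Sf Pool.Agent.R463.EX.Qi w m ↔ Rough w m := by
        intro m
        unfold Pool.Agent.TH464.PO.Sf Rough Pool.Agent.R463.EX.Qi
        constructor
        · intro h2 p hp hpw
          exact h2 p (mem_pz.2 ⟨hpw, hp⟩)
        · intro h2 p hp
          exact h2 p (mem_pz.1 hp).2 (mem_pz.1 hp).1
      simp only [hSf]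
      unfold Window
      constructor
      · rintro ⟨⟨a1, a2⟩, a3, a4⟩
        exact ⟨a1, a2, fun i hi => a4 i (by omega), a3⟩
      · rintro ⟨a1, a2, a3, a4⟩
        exact ⟨⟨a1, a2⟩, a4, fun i hi => a3 i (by omega)⟩
    -- the density
    have hdens : density w k * (weight k S / total k) = dS w S := by
      rw [dS_type w k S hS b3]
      unfold density
      field_simp
    have hVH : Vq (Pool.Agent.TH464.PO.QH Pool.Agent.R463.EX.Qi S) w = dS w S := by
      unfold Vq dS
      apply prod_congr rfl
      intro p hp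
      rw [Pool.Agent.R463.EX.nuB_QH_Qi S p (mem_pz.1 hp).2]
      rfl
    have hmert : mertens w = Vz w := rfl
    rw [hcount, hVH, hVQ] at h1
    rw [hdens, hmert]
    obtain ⟨M, hM⟩ : ∃ M : ℝ, M = Y * dS w S / Vz w := ⟨_, rfl⟩
    have hM' : (Y : ℝ) * (dS w S / Vz w) = M := by rw [hM]; ring
    have hdS0 : 0 ≤ dS w S := by
      rw [← hVH]
      exact Vq_nonneg _ w
    have hM0 : 0 ≤ M := by rw [hM]; positivity
    rw [hM'] at h1
    rw [← hM]
    obtain ⟨x, hx⟩ : ∃ x : ℝ, x = (((k - 1 : ℕ) : ℕ) : ℝ) * Vz w := ⟨_, rfl⟩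
    rw [← hx] at h1
    have hx0 : 0 ≤ x := by rw [hx]; positivity
    have hx1 : x ≤ ε / 2 := by
      have hl := hy1 w b2
      have hl0 : 0 < Real.log w := by
        have : 0 ≤ 2 * k * C1 / ε := by positivity
        linarith
      have h2 := (hVz w b4).2
      rw [hx]
      calc (((k - 1 : ℕ) : ℕ) : ℝ) * Vz w ≤ k * (C1 / Real.log w) := mul_le_mul hkm h2 hVz0.le hk0
        _ ≤ ε / 2 := by
          rw [mul_div_assoc', div_le_iff₀ hl0]
          have h3 : 2 * k * C1 / ε ≤ Real.log w := by linarith
          rw [div_le_iff₀ hε] at h3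
          linarith
    have hex1 : Real.exp (-x) ≤ 1 := Real.exp_le_one_iff.2 (by linarith)
    have hex2 : 1 - x ≤ Real.exp (-x) := by
      have := Real.add_one_le_exp (-x)
      linarith
    have hex0 := Real.exp_pos (-x)
    obtain ⟨h2, h3⟩ := abs_le.1 h1
    have h4 : M * Real.exp (-x) ≤ M := by nlinarith
    have h5 : M * (1 - x) ≤ M * Real.exp (-x) := mul_le_mul_of_nonneg_left hex2 hM0
    have h6 : M * x ≤ M * (ε / 2) := mul_le_mul_of_nonneg_left hx1 hM0
    have h7 : e1 * (M * Real.exp (-x)) ≤ ε / 2 * M := by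
      calc e1 * (M * Real.exp (-x)) ≤ e1 * M := mul_le_mul_of_nonneg_left h4 he10.le
        _ ≤ ε / 2 * M := mul_le_mul_of_nonneg_right he12 hM0
    have h8 : 0 ≤ ε / 2 * M := by positivity
    rw [abs_le]
    constructor <;> nlinarith
  · intro l ε hε
    obtain ⟨K, w₀, hlaw⟩ := law_family (hmax k) l (types k) (by
      intro S hS
      have := (mem_types k S).1 hS
      exact ⟨this.2.2, this.2.1⟩)
      ⟨S0, hS0, hadm⟩ ε hε
    refine ⟨K, max w₀ (max k 2), ?_⟩
    intro w hw Z Y hY S s T hS hsT
    have b1 : w₀ ≤ w := (le_max_left _ _).trans hw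
    have b2 : k ≤ w := ((le_max_left _ _).trans (le_max_right _ _)).trans hw
    have b3 : 2 ≤ w := ((le_max_right _ _).trans (le_max_right _ _)).trans hw
    obtain ⟨c, hc⟩ : ∃ c : ℝ, c = ∏ p ∈ (Icc 1 w).filter Nat.Prime,
      (if p ≤ k then 1 / (p : ℝ) else 1 - (hmax k : ℝ) / (p : ℝ)) := ⟨_, rfl⟩
    have hhk : hmax k ≤ k := by
      obtain ⟨m, hm⟩ := hmax_att k
      rw [← hm]
      exact h_le m k
    have hc0 : 0 < c := by
      rw [hc]
      apply prod_pos
      intro p hp
      rw [mem_filter] at hp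
      have hp1 : (0 : ℝ) < p := by exact_mod_cast hp.2.pos
      split_ifs with h1
      · positivity
      · rw [sub_pos, div_lt_one hp1]
        exact_mod_cast (by omega : hmax k < p)
    have hD : density w k = ∑ S ∈ types k, dS w S := by
      unfold density total
      rw [← hc, Finset.sum_mul]
      apply Finset.sum_congr rfl
      intro S hS
      rw [dS_type w k S hS b2, ← hc]
    have hmain := hlaw w b1 Z Y hY S s T hS hsT (density w k) hD
    have hprod : ∏ j ∈ range (l + 1), dS w (S j) / density w k =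
        ∏ j ∈ range (l + 1), weight k (S j) / total k := by
      apply prod_congr rfl
      intro j hj
      rw [mem_range] at hj
      rw [dS_type w k (S j) (hS j (by omega)) b2]
      unfold density
      rw [← hc]
      field_simp
    rw [hprod] at hmain
    have hnx : nxB w (types k) = next w k := by
      funext n
      unfold nxB next
      congr 1
      ext m
      simp only [Set.mem_ofPred_eq]
      apply and_congr_right
      intro _
      rw [full_iff w k m hk]
      constructor
      · rintro ⟨S, hS, hB⟩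
        exact ⟨S, hS, (window_iff w k m S hS b2 b3).2 hB⟩
      · rintro ⟨S, hS, hB⟩
        exact ⟨S, hS, (window_iff w k m S hS b2 b3).1 hB⟩
    have hcount : cB w (types k) l S s T Z Y = windowCount w k l S s T Z Y := by
      unfold cB windowCount
      rw [hnx]
      congr 1
      ext n
      simp only [Set.mem_ofPred_eq]
      constructor
      · rintro ⟨a1, a2, a3, a4⟩
        exact ⟨a1, a2, fun j hj => (window_iff w k _ _ (hS j hj) b2 b3).2 (a3 j hj), a4⟩
      · rintro ⟨a1, a2, a3, a4⟩
        exact ⟨a1, a2, fun j hj => (window_iff w k _ _ (hS j hj) b2 b3).1 (a3 j hj), a4⟩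
    rw [hcount] at hmain
    exact hmain

end Pool.Agent.Results.MP_cbf366_nt.FullWindows
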