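import Mathlib
import Pool.Agent.U839.Hl.Fail

set_option autoImplicit false

/-!
# The equality of Hardy and Littlewood in random models of the primes: its range is `k ≍ log x`

Let `h_m(k)` be the number of integers in `(m, m + k]` without prime factors `p ≤ k`. The question is whether
`limsup_x (π(x + k) - π(x)) = max_m h_m(k)` for every `k`. We study it in the random models of Cramér and
Granville. Let `T` be nondecreasing, `T(n) ≤ (log n)^θ`, with `θ > 0` arbitrary. Only the integers `n` without prime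
factors `p ≤ T(n)` can be chosen, independently, with probability `∏_{p ≤ T(n)} (1 - 1/p)⁻¹ / log n`. (Granville's
model has `T(n) = log n`.) Let `N(x, k)` be the number of chosen integers in `(x, x + k]`. Almost surely:

(1) For all large `X` and all `k ≤ T(X)` with `k ≤ c log X`, the maximum of `N(x, k)` over `X < x ≤ 2 X` is
`max_m h_m(k)`. Here `c = c(θ) > 0`.

(2) For every `ε > 0`, all large `x` and all `k ≤ T(x)` with `k ≥ (1 + ε) log x`, `N(x, k) < max_m h_m(k)`.

(3) The formula `limsup_x N(x, k) = max_m h_m(k)` holds for all `k` if `T → ∞`, and if `T` is bounded, then it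
fails for all large `k` (the left side is larger).

So in Granville's model the equality holds up to windows of length `c log x`, and it fails beyond
`(1 + ε) log x`. Proof. (1): an optimal window modulo the primes `p ≤ k` is extended to a residue class modulo
`∏_{p ≤ (log X) / 8} p`; the remaining primes up to `(log X)^θ` are removed by a sieve of growing dimension
`≍ k / log k` (Brun's pure sieve suffices, because `∑ 1/p` over these primes is bounded); this leaves more than
`X^(1/2)` windows, each of which is full with probability at least `X^(-1/100)`. (2): a window with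
`max_m h_m(k)` chosen integers is full, `max_m h_m(k) ≥ π(2 k) - π(k)`, and the first moment is `x^(-1 - ε/2)`.
-/

open MeasureTheory ProbabilityTheory Filter Topology

namespace Pool.Agent.Results.MP_cbf366_nt.HardyLittlewoodThreshold

open Classical in
/-- `∏_{p ≤ T(n)} (1 - 1/p)⁻¹` if `n` has no prime factor `p ≤ T(n)`, and `0` otherwise. -/
noncomputable def weight (T : ℕ → ℕ) (n : ℕ) : ℝ :=
  if ∀ p, p.Prime → p ≤ T n → ¬ p ∣ n then
    ∏ p ∈ (Finset.Icc 1 (T n)).filter Nat.Prime, (1 - 1 / (p : ℝ))⁻¹ else 0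

/-- The random model: `E n` is the event that `n` is chosen; these events are independent and have
probability `weight T n / log n` (if this is at most `1`, which is the case for all large `n` here). -/
structure Model {Ω : Type*} [MeasurableSpace Ω] (μ : Measure Ω) (T : ℕ → ℕ) (E : ℕ → Set Ω) : Prop where
  meas : ∀ n, MeasurableSet (E n)
  indep : iIndepSet E μ
  law : ∀ n : ℕ, μ.real (E n) = min 1 (weight T n / Real.log n)

/-- `h_m(k)`: the number of integers in `(m, m + k]` without prime factors `p ≤ k`. -/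
noncomputable def h (m k : ℕ) : ℕ := {n | m < n ∧ n ≤ m + k ∧ ∀ p, p.Prime → p ≤ k → ¬ p ∣ n}.ncard

/-- `max_m h_m(k)`. -/
noncomputable def H (k : ℕ) : ℕ := sSup (Set.range (fun m => h m k))

/-- The number of elements of `Q` in `(x, x + k]`. -/
noncomputable def N (Q : Set ℕ) (x k : ℕ) : ℕ := {n | n ∈ Q ∧ x < n ∧ n ≤ x + k}.ncard

/-- `limsup_x N(x, k)`: the analogue of `ρ(k)` for `Q` in place of the primes. -/
noncomputable def rho (Q : Set ℕ) (k : ℕ) : ℕ := limsup (fun x => N Q x k) atTop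

theorem toSieved {Ω : Type*} [MeasurableSpace Ω] {μ : Measure Ω} {T : ℕ → ℕ} {E : ℕ → Set Ω}
    (h : Model μ T E) : Pool.Agent.U839.Sv.Sieved μ E T :=
  ⟨h.meas, h.indep, h.law⟩

theorem h_eq (m k : ℕ) : h m k = Pool.Agent.U839.Hl.hh m k := by
  classical
  unfold h Pool.Agent.U839.Hl.hh
  rw [← Set.ncard_coe_finset]
  congr 1
  ext n
  simp only [Set.mem_ofPred_eq, Finset.coe_filter, Finset.mem_Ioc, and_assoc]

theorem H_eq (k : ℕ) : H k = Pool.Agent.U839.Hl.HH k := by
  unfold H Pool.Agent.U839.Hl.HH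
  simp only [h_eq]

theorem N_eq (Q : Set ℕ) (x k : ℕ) : N Q x k = Pool.Agent.U839.Hl.NN Q x k := by
  classical
  unfold N Pool.Agent.U839.Hl.NN
  rw [← Set.ncard_coe_finset]
  congr 1
  ext n
  simp only [Set.mem_ofPred_eq, Finset.coe_filter, Finset.mem_Ioc]
  tauto

theorem rho_ge (Q : Set ℕ) (k b : ℕ) (h : ∃ᶠ x in atTop, b ≤ N Q x k) : b ≤ rho Q k := by
  unfold rho
  exact le_limsup_of_frequently_le h
    (isBoundedUnder_of ⟨k, fun x => by rw [N_eq]; exact Pool.Agent.U839.Hl.NN_le Q x k⟩)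

theorem rho_le (Q : Set ℕ) (k b : ℕ) (h : ∀ᶠ x in atTop, N Q x k ≤ b) : rho Q k ≤ b := by
  unfold rho
  exact limsup_le_of_le (isCoboundedUnder_le_of_le atTop (x := 0) (fun _ => Nat.zero_le _)) h

/-- (1), (2) and (3). -/
theorem result.{u} (θ : ℝ) (hθ : 0 < θ) : ∃ c : ℝ, 0 < c ∧ ∀ T : ℕ → ℕ, Monotone T →
    (∀ᶠ n : ℕ in atTop, (T n : ℝ) ≤ (Real.log n) ^ θ) →
    ∀ (Ω : Type u) [MeasurableSpace Ω] (μ : Measure Ω) [IsProbabilityMeasure μ] (E : ℕ → Set Ω),
    Model μ T E →
    (∀ᵐ ω ∂μ, ∀ᶠ X : ℕ in atTop, ∀ k : ℕ, k ≤ T X → (k : ℝ) ≤ c * Real.log X →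
      IsGreatest ((fun x => N {n | ω ∈ E n} x k) '' Set.Ioc X (2 * X)) (H k)) ∧
    (∀ ε : ℝ, 0 < ε → ∀ᵐ ω ∂μ, ∀ᶠ x : ℕ in atTop, ∀ k : ℕ, k ≤ T x → (1 + ε) * Real.log x ≤ k →
      N {n | ω ∈ E n} x k < H k) ∧
    (Tendsto T atTop atTop → ∀ᵐ ω ∂μ, ∀ k : ℕ, rho {n | ω ∈ E n} k = H k) ∧
    (¬ Tendsto T atTop atTop → ∀ᵐ ω ∂μ, ∀ᶠ k : ℕ in atTop, H k < rho {n | ω ∈ E n} k) := by
  obtain ⟨c, hc, hc1, hmain⟩ := Pool.Agent.U839.Hl.unif2 θ hθ
  refine ⟨c, hc, fun T hT hTθ Ω _ μ _ E hE => ⟨?_, ?_, ?_, ?_⟩⟩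
  · filter_upwards [hmain T hT hTθ Ω μ E (toSieved hE), Pool.Agent.U839.Ru.sifted (toSieved hE)] with ω g1 g2
    filter_upwards [g1] with X hX k hk hkc
    rw [H_eq]
    simp only [N_eq]
    constructor
    · obtain ⟨n, hn1, hn2, hn3⟩ := hX k hkc
      refine ⟨n, ⟨hn1, by omega⟩, ?_⟩
      exact le_antisymm (Pool.Agent.U839.Hl.NN_up T hT _ g2 n k (hk.trans (hT hn1.le))) hn3
    · rintro _ ⟨x, hx, rfl⟩
      exact Pool.Agent.U839.Hl.NN_up T hT _ g2 x k (hk.trans (hT hx.1.le))
  · intro ε hε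
    filter_upwards [Pool.Agent.U839.Hl.fail θ hθ T hTθ hT (toSieved hE) ε hε] with ω g1
    simp only [N_eq, H_eq]
    exact g1
  · intro hTt
    filter_upwards [hmain T hT hTθ Ω μ E (toSieved hE), Pool.Agent.U839.Ru.sifted (toSieved hE)] with ω g1 g2 k
    apply le_antisymm
    · apply rho_le
      filter_upwards [hTt.eventually_ge_atTop k] with x hx
      rw [N_eq, H_eq]
      exact Pool.Agent.U839.Hl.NN_up T hT _ g2 x k hx
    · apply rho_ge
      rw [Filter.frequently_atTop]
      intro a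
      obtain ⟨X, hX1, hX2, hX3⟩ := (g1.and ((eventually_ge_atTop a).and
        (Pool.Agent.U839.Thin.tlog.eventually_ge_atTop (k / c)))).exists
      obtain ⟨n, hn1, hn2, hn3⟩ := hX1 k (by rw [div_le_iff₀ hc] at hX3; linarith)
      exact ⟨n, by omega, by rw [H_eq, N_eq]; exact hn3⟩
  · intro hTt
    obtain ⟨t, ht⟩ : ∃ t, ∀ n, T n ≤ t := by
      by_contra hcon
      push Not at hcon
      apply hTt
      apply tendsto_atTop_atTop_of_monotone hT
      intro b
      obtain ⟨n, hn⟩ := hcon b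
      exact ⟨n, hn.le⟩
    obtain ⟨C, hC, hH⟩ := Pool.Agent.U839.Hl.HH_sieve
    filter_upwards [Pool.Agent.U839.Hl.bdd T hT t ht (toSieved hE)] with ω g1
    have hP : (0 : ℝ) < primorial t := by exact_mod_cast primorial_pos t
    filter_upwards [Pool.Agent.U839.Thin.tlog.eventually_ge_atTop (2 * C * primorial t + 1),
      eventually_ge_atTop 2, tendsto_natCast_atTop_atTop.eventually_ge_atTop (6 * (primorial t : ℝ))] with k h1 h2 h3
    obtain ⟨b, hb⟩ : ∃ b, b = ⌈(k : ℝ) / primorial t - 1⌉₊ := ⟨_, rfl⟩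
    have h4 : b ≤ rho {n | ω ∈ E n} k := by
      apply rho_ge
      refine (g1 k).mono fun x hx => ?_
      rw [N_eq, hb]
      exact Nat.ceil_le.2 hx
    refine lt_of_lt_of_le ?_ h4
    rw [hb, H_eq, Nat.lt_ceil]
    have h5 := hH k h2
    have hk : (0 : ℝ) < k := by exact_mod_cast (by omega : 0 < k)
    have hl : 0 < Real.log k := by
      have : 0 < 2 * C * primorial t := by positivity
      linarith
    have h6 : (Pool.Agent.U839.Hl.HH k : ℝ) ≤ k / (2 * primorial t) := by
      rw [le_div_iff₀ (by positivity)]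
      have h7 : (Pool.Agent.U839.Hl.HH k : ℝ) * (2 * C * primorial t) ≤
          Pool.Agent.U839.Hl.HH k * Real.log k := by
        gcongr
        linarith
      have h8 : C * ((Pool.Agent.U839.Hl.HH k : ℝ) * (2 * primorial t)) ≤ C * k := by linarith
      exact le_of_mul_le_mul_left h8 hC
    have h7 : (k : ℝ) / primorial t = k / (2 * primorial t) + k / (2 * primorial t) := by
      field_simp
      ring
    have h8 : 3 ≤ (k : ℝ) / (2 * primorial t) := by
      rw [le_div_iff₀ (by positivity)]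
      linarith
    rw [h7]
    linarith

end Pool.Agent.Results.MP_cbf366_nt.HardyLittlewoodThreshold
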