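import Mathlib
import Pool.Agent.U310.Pat.Univ

set_option autoImplicit false

/-!
# Prime counts in short intervals versus sieve-admissible counts, in random models of the primes

Q1 (Hardy–Littlewood) asks whether `ρ(k)`, the largest number of primes in windows `(x, x + k]` with `x`
arbitrarily large, equals `max_m h_m(k)`, the largest number of integers without prime factors at most `k` in a
window of length `k`.  We answer the question in random models of the primes: the natural numbers are decided one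
after the other, no `m` with a prime factor at most `z(m)` is chosen, and the conditional probability of choosing
`m + 1` (without prime factors at most `z(m + 1)`) given the past is asymptotic to
`∏_{q ≤ z(m + 1)} (1 - 1/q)⁻¹ / log m`.  No independence is assumed.  The answer is yes for all `k` if and only if
the sieve level `z` is unbounded, and then the formula holds uniformly for windows which grow with `x`.
-/

open MeasureTheory Filter
open scoped Topology

namespace Pool.Agent.Results.MP_cbf366_nt.RandomSieveModels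

/-- `∏_{q ≤ x} (1 - 1/q)⁻¹`, `q` prime -/
noncomputable def W (x : ℕ) : ℝ := ∏ q ∈ (Finset.Icc 1 x).filter Nat.Prime, (1 - (q : ℝ)⁻¹)⁻¹

/-- `m` has no prime factor at most `z m` -/
def Rough (z : ℕ → ℕ) (m : ℕ) : Prop := ∀ q, q.Prime → q ≤ z m → ¬ q ∣ m

/-- A random model of the primes with sieve level `z`.  `S n` is the event that `n` is chosen; it is adapted
to the filtration `ℱ`; no `n` with a prime factor at most `z n` is chosen; almost surely the conditional
probability of `S (n + 1)` given `ℱ n`, times `log n / W (z (n + 1))`, tends to `1` along the `n` for which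
`n + 1` has no prime factor at most `z (n + 1)`. -/
structure Model {Ω : Type} [mΩ : MeasurableSpace Ω] (μ : Measure Ω) (ℱ : Filtration ℕ mΩ)
    (S : ℕ → Set Ω) (z : ℕ → ℕ) : Prop where
  adapted : ∀ n, MeasurableSet[ℱ n] (S n)
  sieved : ∀ n, ¬ Rough z n → S n = ∅
  density : ∀ᵐ ω ∂μ, Tendsto (fun n : ℕ =>
    (μ[(S (n + 1)).indicator (fun _ => (1 : ℝ)) | ℱ n]) ω * Real.log n / W (z (n + 1)))
    (atTop ⊓ 𝓟 {n : ℕ | Rough z (n + 1)}) (𝓝 1)

/-- the number of `n ∈ (m, m + k]` without prime factors at most `k` -/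
noncomputable def h (m k : ℕ) : ℕ := {n | m < n ∧ n ≤ m + k ∧ ∀ p : ℕ, p.Prime → p ≤ k → ¬ p ∣ n}.ncard

/-- `max_m h_m(k)` (the values are at most `k`) -/
noncomputable def hmax (k : ℕ) : ℕ := sSup (Set.range fun m => h m k)

/-- the number of elements of `Q` in `(x, x + k]` -/
noncomputable def count (Q : Set ℕ) (x k : ℕ) : ℕ := {n | x < n ∧ n ≤ x + k ∧ n ∈ Q}.ncard

/-- `limsup_{x → ∞} #(Q ∩ (x, x + k])` -/
noncomputable def rho (Q : Set ℕ) (k : ℕ) : ℕ := limsup (fun x => count Q x k) atTop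

/-- the set `{i ∈ [1, k] : x + i ∈ Q}` -/
def pattern (Q : Set ℕ) (x k : ℕ) : Set ℕ := {i | 1 ≤ i ∧ i ≤ k ∧ x + i ∈ Q}

/-- for every prime `p` some translate of `H` contains no multiple of `p` -/
def Admissible (H : Set ℕ) : Prop := ∀ p : ℕ, p.Prime → ∃ c : ℕ, ∀ i ∈ H, ¬ p ∣ c + i

open Pool.Agent.U310.Pat (hc Hm AdmL)

lemma h_eq (m k : ℕ) : h m k = hc m k := by
  classical
  unfold h hc
  rw [← Set.ncard_coe_finset]
  congr 1
  ext n
  rw [Finset.mem_coe, Finset.mem_filter, Finset.mem_Ioc]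
  exact ⟨fun h => ⟨⟨h.1, h.2.1⟩, h.2.2⟩, fun h => ⟨h.1.1, h.1.2, h.2⟩⟩

lemma hmax_eq (k : ℕ) : hmax k = Hm k := by
  unfold hmax Hm
  congr 1
  ext x
  simp only [h_eq]

lemma finite_window (Q : Set ℕ) (x k : ℕ) : {n | x < n ∧ n ≤ x + k ∧ n ∈ Q}.Finite :=
  (Set.finite_Iic (x + k)).subset fun _ h => h.2.1

lemma count_eq (Q : Set ℕ) (x k : ℕ) : count Q x k = (pattern Q x k).ncard := by
  unfold count pattern
  have e : {n | x < n ∧ n ≤ x + k ∧ n ∈ Q} = (fun i => x + i) '' {i | 1 ≤ i ∧ i ≤ k ∧ x + i ∈ Q} := by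
    ext n
    simp only [Set.mem_ofPred_eq, Set.mem_image]
    constructor
    · rintro ⟨h1, h2, h3⟩
      refine ⟨n - x, ⟨by omega, by omega, ?_⟩, by omega⟩
      have : x + (n - x) = n := by omega
      rw [this]
      exact h3
    · rintro ⟨i, ⟨h1, h2, h3⟩, rfl⟩
      exact ⟨by omega, by omega, h3⟩
  rw [e, Set.ncard_image_of_injective _ (fun a b h => by simpa using h)]

lemma count_le (Q : Set ℕ) (x k : ℕ) : count Q x k ≤ k := by
  rw [count_eq]
  have h1 : pattern Q x k ⊆ (Finset.Icc 1 k : Set ℕ) := fun i h => by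
    rw [Finset.coe_Icc, Set.mem_Icc]
    exact ⟨h.1, h.2.1⟩
  have h2 := Set.ncard_le_ncard h1 (Finset.finite_toSet _)
  rw [Set.ncard_coe_finset, Nat.card_Icc, Nat.add_sub_cancel] at h2
  exact h2

lemma pattern_rough {Q : Set ℕ} {z : ℕ → ℕ} (hmono : Monotone z) (hQ : ∀ n ∈ Q, Rough z n) {X x k : ℕ}
    (hX : X < x) (hk : k ≤ z X) : ∀ i ∈ pattern Q x k, ∀ p : ℕ, p.Prime → p ≤ k → ¬ p ∣ x + i :=
  fun i hi p hp hpk => hQ _ hi.2.2 p hp (hpk.trans (hk.trans (hmono (by omega))))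

lemma pattern_adm {Q : Set ℕ} {z : ℕ → ℕ} (hmono : Monotone z) (hQ : ∀ n ∈ Q, Rough z n) {X x k : ℕ}
    (hX : X < x) (hk : k ≤ z X) : Admissible (pattern Q x k) :=
  Pool.Agent.U310.Pat.adm_of_rough (fun i hi => ⟨hi.1, hi.2.1⟩) (pattern_rough hmono hQ hX hk)

lemma h_le_hmax (m k : ℕ) : h m k ≤ hmax k := by
  rw [h_eq, hmax_eq]
  exact Pool.Agent.U310.Pat.le_Hm m k

lemma count_le_hmax {Q : Set ℕ} {z : ℕ → ℕ} (hmono : Monotone z) (hQ : ∀ n ∈ Q, Rough z n) {X x k : ℕ}
    (hX : X ≤ x) (hk : k ≤ z X) : count Q x k ≤ hmax k := by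
  refine le_trans ?_ (h_le_hmax x k)
  unfold count h
  refine Set.ncard_le_ncard (fun n hn => ⟨hn.1, hn.2.1, fun p hp hpk => ?_⟩)
    ((Set.finite_Iic (x + k)).subset fun _ h => h.2.1)
  exact hQ n hn.2.2 p hp (hpk.trans (hk.trans (hmono (hX.trans hn.1.le))))

/-- **Prime counts in short intervals in random models with a sieve.**

Let `S` be a random model with monotone sieve level `z`, `z(m) ≤ (log m) / 4` for all large `m`.

(A) Let `z` be unbounded.  Almost surely

(1) for all large `X` and ALL `k ≤ z(X)` with `k log log X ≤ (log X) / 16`: the patterns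
`{i ∈ [1, k] : x + i ∈ S}`, `X < x ≤ 2 X - k`, are exactly the admissible subsets of `[1, k]`, and the largest
number of chosen integers in the windows `(x, x + k]`, `X < x ≤ 2 X - k`, is `max_m h_m(k)`;

(2) `ρ_S(k) = max_m h_m(k)` for all `k` (Q1).

(B) Let `z` be bounded.  Almost surely `ρ_S(k) > max_m h_m(k)` for all large `k`. -/
theorem result {Ω : Type} [mΩ : MeasurableSpace Ω] (μ : Measure Ω) [IsProbabilityMeasure μ]
    (ℱ : Filtration ℕ mΩ) (S : ℕ → Set Ω) (z : ℕ → ℕ) (hM : Model μ ℱ S z) (hmono : Monotone z)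
    (hz : ∀ᶠ m : ℕ in atTop, (z m : ℝ) ≤ Real.log m / 4) :
    -- (A)
    (Tendsto z atTop atTop → ∀ᵐ ω ∂μ,
      -- (1)
      (∀ᶠ X : ℕ in atTop, ∀ k : ℕ, k ≤ z X → k * Real.log (Real.log X) ≤ Real.log X / 16 →
        {P | ∃ x, X < x ∧ x + k ≤ 2 * X ∧ pattern {n | ω ∈ S n} x k = P} =
          {P | P ⊆ Set.Icc 1 k ∧ Admissible P} ∧
        IsGreatest {c | ∃ x, X < x ∧ x + k ≤ 2 * X ∧ count {n | ω ∈ S n} x k = c} (hmax k)) ∧
      -- (2)
      ∀ k : ℕ, rho {n | ω ∈ S n} k = hmax k) ∧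
    -- (B)
    ((∃ b, ∀ m, z m ≤ b) → ∀ᵐ ω ∂μ, ∃ k0 : ℕ, ∀ k : ℕ, k0 ≤ k → hmax k < rho {n | ω ∈ S n} k) := by
  classical
  have hz4 : ∀ᶠ m : ℕ in atTop, 4 * (z m : ℝ) ≤ Real.log m := by
    filter_upwards [hz] with m hm
    linarith
  have hz1 : ∀ᶠ m : ℕ in atTop, (z m : ℝ) ≤ Real.log m := by
    filter_upwards [hz] with m hm
    have := Real.log_natCast_nonneg m
    linarith
  have hprof := Pool.Agent.U310.Pat.profile2 (μ := μ) (ℱ := ℱ) z hz1 hM.sieved hM.density
  have hU := Pool.Agent.U310.Pat.univ_patterns (μ := μ) (ℱ := ℱ) hM.adapted z hmono hz4 hprof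
  have hrough : ∀ ω, ∀ n ∈ {n | ω ∈ S n}, Rough z n := by
    intro ω n hn
    by_contra hcon
    have := hM.sieved n hcon
    rw [Set.mem_ofPred_eq, this] at hn
    exact hn
  have hksmall : ∀ k : ℕ, ∀ᶠ X : ℕ in atTop, (k : ℝ) * Real.log (Real.log X) ≤ Real.log X / 16 := by
    intro k
    have h2 : Tendsto (fun x : ℝ => Real.log x / x) atTop (𝓝 0) :=
      Real.isLittleO_log_id_atTop.tendsto_div_nhds_zero
    have h3 := (h2.comp Pool.Agent.U310.Pat.tlog).const_mul (k : ℝ)
    rw [mul_zero] at h3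
    filter_upwards [h3.eventually (gt_mem_nhds (show (0 : ℝ) < 1 / 16 by norm_num)),
      Pool.Agent.U310.Pat.tlog.eventually_gt_atTop 0] with X h4 h5
    simp only [Function.comp] at h4
    rw [← mul_div_assoc, div_lt_iff₀ h5] at h4
    linarith
  -- bounds for limsup
  have hbdd : ∀ (ω : Ω) (k : ℕ), IsBoundedUnder (· ≤ ·) atTop (fun x => count {n | ω ∈ S n} x k) :=
    fun ω k => isBoundedUnder_of ⟨k, fun x => count_le _ x k⟩
  have hge : ∀ (ω : Ω) (k c : ℕ), (∀ᶠ X : ℕ in atTop, ∃ x, X < x ∧ c ≤ count {n | ω ∈ S n} x k) →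
      c ≤ rho {n | ω ∈ S n} k := by
    intro ω k c hev
    refine le_limsup_of_frequently_le ?_ (hbdd ω k)
    rw [frequently_atTop]
    intro a
    obtain ⟨X, hX1, hX2⟩ := (hev.and (eventually_ge_atTop a)).exists
    obtain ⟨x, hx1, hx2⟩ := hX1
    exact ⟨x, by omega, hx2⟩
  refine ⟨fun hzinf => ?_, ?_⟩
  · filter_upwards [hU] with ω hω
    have h1 : ∀ᶠ X : ℕ in atTop, ∀ k : ℕ, k ≤ z X → k * Real.log (Real.log X) ≤ Real.log X / 16 →
        {P | ∃ x, X < x ∧ x + k ≤ 2 * X ∧ pattern {n | ω ∈ S n} x k = P} =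
          {P | P ⊆ Set.Icc 1 k ∧ Admissible P} ∧
        IsGreatest {c | ∃ x, X < x ∧ x + k ≤ 2 * X ∧ count {n | ω ∈ S n} x k = c} (hmax k) := by
      filter_upwards [hω] with X hX k hk1 hk2
      have hocc : ∀ H : Finset ℕ, (∀ i ∈ H, 1 ≤ i ∧ i ≤ k) → Admissible (H : Set ℕ) →
          ∃ x, X < x ∧ x + k ≤ 2 * X ∧ pattern {n | ω ∈ S n} x k = H := by
        intro H hH hadm
        obtain ⟨x, hx1, hx2, hx3⟩ := hX k hk2 H hH (Pool.Agent.U310.Pat.Adm.level hadm _)
        refine ⟨x, hx1, hx2, ?_⟩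
        ext i
        simp only [pattern, Set.mem_ofPred_eq, Finset.mem_coe]
        constructor
        · rintro ⟨h1, h2, h3⟩
          exact (hx3 i h1 h2).1 h3
        · intro h
          have := hH i h
          exact ⟨this.1, this.2, (hx3 i this.1 this.2).2 h⟩
      constructor
      · ext P
        simp only [Set.mem_ofPred_eq]
        constructor
        · rintro ⟨x, hx1, hx2, rfl⟩
          exact ⟨fun i hi => ⟨hi.1, hi.2.1⟩, pattern_adm hmono (hrough ω) hx1 hk1⟩
        · rintro ⟨hP, hadm⟩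
          have hfin : P.Finite := (Set.finite_Icc 1 k).subset hP
          obtain ⟨x, hx1, hx2, hx3⟩ := hocc hfin.toFinset (fun i hi => by
            have := hP (hfin.mem_toFinset.1 hi)
            exact this) (by rw [hfin.coe_toFinset]; exact hadm)
          refine ⟨x, hx1, hx2, ?_⟩
          rw [hx3, hfin.coe_toFinset]
      · constructor
        · obtain ⟨H, hH1, hH2, hH3⟩ := Pool.Agent.U310.Pat.exists_adm k
          obtain ⟨x, hx1, hx2, hx3⟩ := hocc H hH1 hH2
          refine ⟨x, hx1, hx2, ?_⟩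
          rw [count_eq, hx3, Set.ncard_coe_finset, hH3, hmax_eq]
        · rintro c ⟨x, hx1, hx2, rfl⟩
          exact count_le_hmax hmono (hrough ω) hx1.le hk1
    refine ⟨h1, fun k => le_antisymm ?_ ?_⟩
    · refine limsup_le_of_le (isCoboundedUnder_le_of_le atTop (x := 0) fun x => Nat.zero_le _) ?_
      filter_upwards [hzinf.eventually_ge_atTop k] with x hx
      exact count_le_hmax hmono (hrough ω) le_rfl hx
    · apply hge ω k
      filter_upwards [h1, hzinf.eventually_ge_atTop k, hksmall k] with X h2 h3 h4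
      obtain ⟨⟨x, hx1, -, hx3⟩, -⟩ := (h2 k h3 h4).2
      exact ⟨x, hx1, hx3.ge⟩
  · rintro ⟨b, hb⟩
    filter_upwards [hU] with ω hω
    obtain ⟨k0, hk0⟩ := Pool.Agent.U310.Pat.Hm_lt b
    refine ⟨k0, fun k hk => ?_⟩
    rw [hmax_eq]
    refine lt_of_lt_of_le (hk0 k hk) ?_
    apply hge ω k
    filter_upwards [hω, hksmall k] with X h2 h3
    set H := (Finset.Ico 1 (k + 1)).filter (fun x => (primorial b).Coprime x) with hH
    have hH1 : ∀ i ∈ H, 1 ≤ i ∧ i ≤ k := by
      intro i hi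
      rw [hH, Finset.mem_filter, Finset.mem_Ico] at hi
      omega
    obtain ⟨x, hx1, hx2, hx3⟩ := h2 k h3 H hH1 (fun p hp hpz => ⟨0, fun i hi => by
      rw [Finset.mem_coe, hH, Finset.mem_filter] at hi
      rw [zero_add]
      exact Pool.Agent.U310.Pat.coprime_primorial.1 hi.2 p hp (hpz.trans (hb _))⟩)
    refine ⟨x, hx1, ?_⟩
    rw [count_eq, ← Set.ncard_coe_finset]
    refine Set.ncard_le_ncard (fun i hi => ?_) ((Set.finite_Iic k).subset fun _ h => h.2.1)
    have := hH1 i hi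
    exact ⟨this.1, this.2, (hx3 i this.1 this.2).2 hi⟩

end Pool.Agent.Results.MP_cbf366_nt.RandomSieveModels
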